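import Pool.Agent.Lib.MP_d24f8b_al.H86Own

set_option autoImplicit false

namespace Pool.Agent.Variants.MP_d24f8b_al.StrictInclusion

/-- There is a finitely generated group `G` such that, for every field `K` of characteristic 2,
the join of all nilpotent two-sided ideals of `K[G]` is strictly contained in the intersection of
all maximal left ideals of `K[G]`. -/
theorem result.{u} : ∃ (G : Type) (_ : Group G), Group.FG G ∧
    ∀ (K : Type u) [Field K] [CharP K 2],
      TwoSidedIdeal.asIdeal
          (sSup {I : TwoSidedIdeal (MonoidAlgebra K G) |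
            ∃ n : ℕ, 1 ≤ n ∧ TwoSidedIdeal.asIdeal I ^ n = ⊥})
        < sInf {M : Ideal (MonoidAlgebra K G) | M.IsMaximal} :=
  ⟨Pool.Agent.Lib.MP_d24f8b_al.G, inferInstance, inferInstance, fun K _ _ =>
    Pool.Agent.Lib.MP_d24f8b_al.H86.strict (ZMod.castHom (dvd_refl 2) K)⟩

end Pool.Agent.Variants.MP_d24f8b_al.StrictInclusion
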